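import Pool.Agent.H951R5.AR.Gen
import Pool.Agent.H38R2.CG3.Fin

/-!
# Assembly for almost all discriminants
-/

set_option autoImplicit false

namespace Pool.Agent.H951R5.AR

open Finset Filter NumberField Pool.Agent.H38R2.CG Pool.Agent.H38R2.CG2 Pool.Agent.H38R2.CG3
open Pool.Agent.H38R2.CG.AS1h Pool.Agent.H38R2.CG.FINh
open scoped Classical

/-- a quadratic field has at most two real embeddings -/
theorem emb_two {K : Type} [Field K] [NumberField K] (h2 : Module.finrank ℚ K = 2)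
    (σ τ ρ : K →+* ℝ) (h : σ ≠ τ) : ρ = σ ∨ ρ = τ := by
  by_contra hcon
  push Not at hcon
  have hinj : ∀ f g : K →+* ℝ, (Complex.ofRealHom).comp f = (Complex.ofRealHom).comp g → f = g := by
    intro f g hfg
    ext x
    have h1 := congrArg (fun φ : K →+* ℂ => φ x) hfg
    simpa using h1
  have hcard : Fintype.card (K →+* ℂ) = 2 := by
    rw [NumberField.Embeddings.card K ℂ, h2]
  have h3 : ({(Complex.ofRealHom).comp σ, (Complex.ofRealHom).comp τ,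
      (Complex.ofRealHom).comp ρ} : Finset (K →+* ℂ)).card = 3 := by
    rw [Finset.card_eq_three]
    refine ⟨_, _, _, ?_, ?_, ?_, rfl⟩
    · exact fun h4 => h (hinj _ _ h4)
    · exact fun h4 => hcon.1 (hinj _ _ h4).symm
    · exact fun h4 => hcon.2 (hinj _ _ h4).symm
  have h4 := Finset.card_le_univ ({(Complex.ofRealHom).comp σ, (Complex.ofRealHom).comp τ,
      (Complex.ofRealHom).comp ρ} : Finset (K →+* ℂ))
  rw [h3, hcard] at h4
  omega

theorem Covers.mono {K : Type} [Field K] [NumberField K] {σ τ : K →+* ℝ} {B B' n n' : ℝ}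
    (h : Covers K σ τ B n) (hB : B ≤ B') (hn : n ≤ n') : Covers K σ τ B' n' := by
  intro I hI t
  obtain ⟨A, x, h1, h2, h3, h4⟩ := h I hI t
  exact ⟨A, x, h1.mono hB hn, h2, h3, h4⟩

theorem Covers.swap {K : Type} [Field K] [NumberField K] {σ τ : K →+* ℝ} {B n : ℝ}
    (h : Covers K σ τ B n) : Covers K τ σ B n := by
  intro I hI t
  obtain ⟨A, x, h1, h2, h3, h4⟩ := h I hI (-t)
  refine ⟨A, x, h1, ⟨h2.2, h2.1⟩, h3, ?_⟩
  have h5 : Real.log (τ x / σ x) = - Real.log (σ x / τ x) := by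
    rw [← Real.log_inv, inv_div]
  rw [h5]
  rw [abs_le] at *
  constructor <;> linarith [h4.1, h4.2]

/-- outside the exceptional discriminants the covering property holds -/
theorem covers_of_not_bd (hN0 : P_N0) (hN1 : P_N1) (hN3 : P_N3) (hN5 : P_N5) (hN6 : P_N6)
    (a t0 : ℝ) (ht0 : t0 ≤ 1) (X D : ℕ) (hy : 2 ≤ yA a X) (hD : IsFund D)
    (K : Type) [Field K] [NumberField K] (h2 : Module.finrank ℚ K = 2)
    (hK : NumberField.discr K = (D : ℤ)) (hb : ¬ Bd a t0 X D) (σ τ : K →+* ℝ) (hne : σ ≠ τ) :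
    Covers K σ τ (2 * (yA a X : ℝ)) (2 * (kA a X : ℝ)) := by
  obtain ⟨e⟩ := hN0 K D hD h2 hK
  have hS : ∀ s ∈ SA a X, s ⊆ PP (yA a X) ∧ s.card = kA a X := by
    intro s hs
    exact mem_powersetCard.1 hs
  have hP : ∀ s ∈ SA a X, ∀ p ∈ s, p.Prime ∧ yA a X < p ∧ p ≤ 2 * yA a X := by
    intro s hs p hp
    have h3 := (hS s hs).1 hp
    simp only [PP, mem_filter, mem_Ioc] at h3
    exact ⟨h3.2, h3.1.1, h3.1.2⟩
  have hf : ∀ s ∈ SA a X, (0 : ℝ) ≤ (fun _ : Finset ℕ => (1 : ℝ)) s ∧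
      ∀ p ∈ s, p.Prime ∧ p ≠ 2 := by
    intro s hs
    refine ⟨zero_le_one, fun p hp => ?_⟩
    have h3 := hP s hs p hp
    exact ⟨h3.1, by omega⟩
  have hlt : 2 * √(D : ℝ) * Lone D * SD D (SA a X) (fun _ => 1) <
      2 * (MD D (SA a X) (fun _ => 1)) ^ 2 := by
    unfold Bd at hb
    push Not at hb
    refine hb.trans_le ?_
    exact mul_le_mul_of_nonneg_right (by linarith) (sq_nonneg _)
  have hcov : Covers K e.σ e.τ (2 * (yA a X : ℝ)) (2 * (kA a X : ℝ)) := by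
    intro I hI t
    obtain ⟨s, hs, s', hs', A, B, hA, hB, x, h3, h4, h5, h6⟩ :=
      cover_all hN1 hN3 hN5 hN6 hD h2 hK e (SA a X) (fun _ => 1) hf hlt I hI t
    refine ⟨A * B, x, ?_, ⟨h3, h4⟩, h5, h6⟩
    have hle : ∀ s ∈ SA a X, ∀ p ∈ s, (p : ℝ) ≤ 2 * (yA a X : ℝ) := by
      intro s hs p hp
      exact_mod_cast (hP s hs p hp).2.2
    have hA' := smallProd_of_norm s (fun p hp => (hP s hs p hp).1) _ (hle s hs) A hA
    have hB' := smallProd_of_norm s' (fun p hp => (hP s' hs' p hp).1) _ (hle s' hs') B hB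
    rw [(hS s hs).2] at hA'
    rw [(hS s' hs').2] at hB'
    exact (hA'.mul hB').mono le_rfl (by linarith)
  have hne' : e.σ ≠ e.τ := e.ne
  rcases emb_two h2 e.σ e.τ σ hne' with h3 | h3
  · rcases emb_two h2 e.σ e.τ τ hne' with h4 | h4
    · exact absurd (h3.trans h4.symm) hne
    · rw [h3, h4]; exact hcov
  · rcases emb_two h2 e.σ e.τ τ hne' with h4 | h4
    · rw [h3, h4]; exact hcov.swap
    · exact absurd (h3.trans h4.symm) hne

/-- the exceptional d have exceptional discriminants -/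
theorem exc_bd' (hN0 : P_N0) (hN0d : P_N0d) (hN1 : P_N1) (hN3 : P_N3) (hN5 : P_N5)
    (hN6 : P_N6) (a : ℝ) (ha : 2 < a) :
    ∃ X1 : ℕ, ∀ X : ℕ, X1 ≤ X → ∀ d : ℕ, 1 < d → Squarefree d → ¬ GoodAR a d → X < Dof d →
      Dof d ≤ 2 * X → IsFund (Dof d) ∧ Bd a (1 / 4) X (Dof d) := by
  obtain ⟨X1, hX1⟩ := params a ha
  refine ⟨X1, fun X hX d hd1 hds hg hXD hDX => ?_⟩
  have hfund := isFund_Dof hd1 hds
  refine ⟨hfund, ?_⟩
  have hd4 : (X : ℝ) / 4 ≤ d := by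
    have h1 : X < 4 * d := lt_of_lt_of_le hXD (Dof_le d)
    have h2 : (X : ℝ) < 4 * d := by exact_mod_cast h1
    linarith
  have hd2 : (d : ℝ) ≤ 2 * X := by
    have h1 : d ≤ 2 * X := (le_Dof d).trans hDX
    exact_mod_cast h1
  obtain ⟨hy, hk, hy2⟩ := hX1 X hX d hd4 hd2
  by_contra hb
  apply hg
  intro K iF iN hrank hx σ τ hne
  have hdisc : NumberField.discr K = ((Dof d : ℕ) : ℤ) := by
    rw [hN0d K d hd1 hds hrank hx]
    unfold Dof
    split_ifs <;> simp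
  have hcov := (covers_of_not_bd hN0 hN1 hN3 hN5 hN6 a (1 / 4) (by norm_num) X (Dof d) hy2 hfund
    K hrank hdisc hb σ τ hne).mono hy hk
  have hn : 0 ≤ Real.log d / Real.log (Real.log d) := by
    refine le_trans ?_ hk
    positivity
  exact ⟨hcov, fun u hu => sunit_gen hn hcov hu, ufd_iff hn hcov⟩

/-- the theorem for all squarefree integers -/
theorem finalAR (hN0 : P_N0) (hN0d : P_N0d) (hN1 : P_N1) (hN3 : P_N3) (hN5 : P_N5)
    (hN6 : P_N6) (ht : P2_TRIV) (hAS : P3_AS0) : FinalAR := by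
  intro a ha
  have hmain : Tendsto (fun X : ℕ =>
      (((Finset.Icc 2 X).filter (fun d => Squarefree d ∧ ¬ GoodAR a d)).card : ℝ) / X)
      atTop (nhds 0) := by
    suffices hs : ∀ δ : ℝ, 0 < δ → ∃ η : ℝ, 0 < η ∧ η ≤ 1 ∧ ∃ X0 : ℕ, ∀ X ≥ X0,
        (((Finset.Ioc X ⌊(1 + η) * (X : ℝ)⌋₊).filter
          (fun D => ∃ d : ℕ, 1 < d ∧ Squarefree d ∧ ¬ GoodAR a d ∧ D = Dof d)).card : ℝ) ≤
          δ * η * X by
      have key := fin_all (fun d => ¬ GoodAR a d) hs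
      convert key
    intro δ hδ
    obtain ⟨η, hη, hη1, X0, hX0⟩ := short_all ht hAS a ha (1 / 4) (by norm_num) δ hδ
    obtain ⟨X1, hX1⟩ := exc_bd' hN0 hN0d hN1 hN3 hN5 hN6 a ha
    refine ⟨η, hη, hη1, max X0 X1, fun X hX => ?_⟩
    refine le_trans ?_ (hX0 X (le_trans (le_max_left _ _) hX))
    have hsub : ((Finset.Ioc X ⌊(1 + η) * (X : ℝ)⌋₊).filter
          (fun D => ∃ d : ℕ, 1 < d ∧ Squarefree d ∧ ¬ GoodAR a d ∧ D = Dof d)) ⊆
        (Finset.Ioc X ⌊(1 + η) * (X : ℝ)⌋₊).filter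
          (fun D => IsFund D ∧ Bd a (1 / 4) X D) := by
      intro D hD
      rw [Finset.mem_filter] at hD ⊢
      obtain ⟨hD1, d, hd1, hds, hg, rfl⟩ := hD
      refine ⟨hD1, ?_⟩
      refine hX1 X (le_trans (le_max_right _ _) hX) d hd1 hds hg (Finset.mem_Ioc.1 hD1).1 ?_
      have h1 := (Finset.mem_Ioc.1 hD1).2
      have h2 : ((⌊(1 + η) * (X : ℝ)⌋₊ : ℕ) : ℝ) ≤ (1 + η) * (X : ℝ) :=
        Nat.floor_le (by positivity)
      have h3 : (Dof d : ℝ) ≤ (⌊(1 + η) * (X : ℝ)⌋₊ : ℝ) := by exact_mod_cast h1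
      have h5 : (Dof d : ℝ) ≤ 2 * (X : ℝ) := by
        have : (0 : ℝ) ≤ X := by positivity
        nlinarith
      exact_mod_cast h5
    exact_mod_cast Finset.card_le_card hsub
  refine hmain.congr fun X => ?_
  congr 2
  symm
  refine Nat.subtype_card _ fun d => ?_
  rw [Finset.mem_filter, Finset.mem_Icc]
  tauto

/-- the theorem for primes -/
theorem finalARP (hN0 : P_N0) (hN0d : P_N0d) (hN1 : P_N1) (hN3 : P_N3) (hN5 : P_N5)
    (hN6 : P_N6) (hNB : P_NB) (hBH : P2_BH) (hRC : P2_RC) (hAS : P3_AS0) :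
    FinalARP := by
  intro a ha
  have hmain : Tendsto (fun X : ℕ =>
      (((Finset.Icc 2 X).filter (fun p => p.Prime ∧ ¬ GoodAR a p)).card : ℝ) /
        (((Finset.Icc 2 X).filter Nat.Prime).card : ℝ)) atTop (nhds 0) := by
    suffices hs : ∀ δ : ℝ, 0 < δ → ∃ η : ℝ, 0 < η ∧ η ≤ 1 ∧ ∃ X0 : ℕ, ∀ X ≥ X0,
        (((Finset.Ioc X ⌊(1 + η) * (X : ℝ)⌋₊).filter
          (fun D => ∃ p : ℕ, p.Prime ∧ ¬ GoodAR a p ∧ D = Dof p)).card : ℝ) ≤
          δ * η * X / Real.log X by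
      have key := fin_primes hNB (fun d => ¬ GoodAR a d) hs
      convert key
    intro δ hδ
    obtain ⟨η, hη, hη1, X0, hX0⟩ := short_primes hAS hBH hRC a ha (1 / 4) (by norm_num) δ hδ
    obtain ⟨X1, hX1⟩ := exc_bd' hN0 hN0d hN1 hN3 hN5 hN6 a ha
    refine ⟨η, hη, hη1, max X0 X1, fun X hX => ?_⟩
    refine le_trans ?_ (hX0 X (le_trans (le_max_left _ _) hX))
    have hsub : ((Finset.Ioc X ⌊(1 + η) * (X : ℝ)⌋₊).filter
          (fun D => ∃ p : ℕ, p.Prime ∧ ¬ GoodAR a p ∧ D = Dof p)) ⊆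
        (Finset.Ioc X ⌊(1 + η) * (X : ℝ)⌋₊).filter
          (fun D => (∃ p : ℕ, p.Prime ∧ (D = p ∨ D = 4 * p)) ∧
            IsFund D ∧ Bd a (1 / 4) X D) := by
      intro D hD
      rw [Finset.mem_filter] at hD ⊢
      obtain ⟨hD1, p, hp, hg, rfl⟩ := hD
      refine ⟨hD1, ⟨p, hp, ?_⟩, ?_⟩
      · unfold Dof
        split_ifs <;> simp
      refine hX1 X (le_trans (le_max_right _ _) hX) p hp.one_lt hp.squarefree hg
        (Finset.mem_Ioc.1 hD1).1 ?_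
      have h1 := (Finset.mem_Ioc.1 hD1).2
      have h2 : ((⌊(1 + η) * (X : ℝ)⌋₊ : ℕ) : ℝ) ≤ (1 + η) * (X : ℝ) :=
        Nat.floor_le (by positivity)
      have h3 : (Dof p : ℝ) ≤ (⌊(1 + η) * (X : ℝ)⌋₊ : ℝ) := by exact_mod_cast h1
      have h5 : (Dof p : ℝ) ≤ 2 * (X : ℝ) := by
        have : (0 : ℝ) ≤ X := by positivity
        nlinarith
      exact_mod_cast h5
    exact_mod_cast Finset.card_le_card hsub
  refine hmain.congr fun X => ?_
  have e1 : (Nat.card {p : ℕ // p ≤ X ∧ p.Prime ∧ ¬ GoodAR a p}) =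
      ((Finset.Icc 2 X).filter (fun p => p.Prime ∧ ¬ GoodAR a p)).card := by
    refine Nat.subtype_card _ fun p => ?_
    rw [Finset.mem_filter, Finset.mem_Icc]
    constructor
    · rintro ⟨⟨-, h2⟩, h3, h4⟩
      exact ⟨h2, h3, h4⟩
    · rintro ⟨h2, h3, h4⟩
      exact ⟨⟨h3.two_le, h2⟩, h3, h4⟩
  have e2 : (Nat.card {p : ℕ // p ≤ X ∧ p.Prime}) =
      ((Finset.Icc 2 X).filter Nat.Prime).card := by
    refine Nat.subtype_card _ fun p => ?_
    rw [Finset.mem_filter, Finset.mem_Icc]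
    constructor
    · rintro ⟨⟨-, h2⟩, h3⟩
      exact ⟨h2, h3⟩
    · rintro ⟨h2, h3⟩
      exact ⟨⟨h3.two_le, h2⟩, h3⟩
  rw [e1, e2]

end Pool.Agent.H951R5.AR
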