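import Pool.Agent.H38R2.CG.BT
import Pool.Agent.H38R2.CG.CC1
import Pool.Agent.H38R2.CG.CC3
import Pool.Agent.H38R2.CG.CC5
import Pool.Agent.H38R2.CG.CC6
import Pool.Agent.H38R2.CG.KF
import Pool.Agent.H38R2.CG.KR
import Pool.Agent.H38R2.CG.LS
import Pool.Agent.H38R2.CG.N0
import Pool.Agent.H38R2.CG.N0d
import Pool.Agent.H38R2.CG.N0e
import Pool.Agent.H38R2.CG.N1
import Pool.Agent.H38R2.CG.N2
import Pool.Agent.H38R2.CG.N3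
import Pool.Agent.H38R2.CG.N3a
import Pool.Agent.H38R2.CG.N3b
import Pool.Agent.H38R2.CG.N4
import Pool.Agent.H38R2.CG.N4a
import Pool.Agent.H38R2.CG.N4b
import Pool.Agent.H38R2.CG.N5
import Pool.Agent.H38R2.CG.N5a
import Pool.Agent.H38R2.CG.N5b
import Pool.Agent.H38R2.CG.N6
import Pool.Agent.H38R2.CG.NB
import Pool.Agent.H38R2.CG.NF
import Pool.Agent.H38R2.CG.PV
import Pool.Agent.H38R2.CG.SPL
import Pool.Agent.H38R2.CG.TB2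
import Pool.Agent.H38R2.CG.TB3a
import Pool.Agent.H38R2.CG.TB3c
import Pool.Agent.H38R2.CG.TB6a
import Pool.Agent.H38R2.CG.TB6b
import Pool.Agent.H38R2.CG.TB6c
import Pool.Agent.H38R2.CG2.BF
import Pool.Agent.H38R2.CG2.BH
import Pool.Agent.H38R2.CG2.BHa
import Pool.Agent.H38R2.CG2.BHc
import Pool.Agent.H38R2.CG2.CC4
import Pool.Agent.H38R2.CG2.CC7
import Pool.Agent.H38R2.CG2.CH
import Pool.Agent.H38R2.CG2.COMB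
import Pool.Agent.H38R2.CG2.ERR
import Pool.Agent.H38R2.CG2.FJ
import Pool.Agent.H38R2.CG2.FS
import Pool.Agent.H38R2.CG2.HB
import Pool.Agent.H38R2.CG2.HD
import Pool.Agent.H38R2.CG2.HS
import Pool.Agent.H38R2.CG2.JP
import Pool.Agent.H38R2.CG2.JX
import Pool.Agent.H38R2.CG2.KB
import Pool.Agent.H38R2.CG2.LM
import Pool.Agent.H38R2.CG2.M1L
import Pool.Agent.H38R2.CG2.MLOW
import Pool.Agent.H38R2.CG2.MP
import Pool.Agent.H38R2.CG2.NB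
import Pool.Agent.H38R2.CG2.NBAD
import Pool.Agent.H38R2.CG2.OM
import Pool.Agent.H38R2.CG2.OMC
import Pool.Agent.H38R2.CG2.PAIR
import Pool.Agent.H38R2.CG2.R1
import Pool.Agent.H38R2.CG2.R2
import Pool.Agent.H38R2.CG2.RC
import Pool.Agent.H38R2.CG2.SZ
import Pool.Agent.H38R2.CG2.T1
import Pool.Agent.H38R2.CG2.T1a
import Pool.Agent.H38R2.CG2.T2
import Pool.Agent.H38R2.CG2.TA
import Pool.Agent.H38R2.CG2.TC
import Pool.Agent.H38R2.CG2.TC0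
import Pool.Agent.H38R2.CG2.TD
import Pool.Agent.H38R2.CG2.TE
import Pool.Agent.H38R2.CG2.TM
import Pool.Agent.H38R2.CG2.TMa
import Pool.Agent.H38R2.CG2.TMb
import Pool.Agent.H38R2.CG2.TMc
import Pool.Agent.H38R2.CG2.TRIV
import Pool.Agent.H38R2.CG2.V0
import Pool.Agent.H38R2.CG2.V1
import Pool.Agent.H38R2.CG2.WT
import Pool.Agent.H38R2.CG3.AS0
import Pool.Agent.H38R2.CG3.Fin
import Pool.Agent.H951R5.AR.Fin


/-!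
# Assembly: the two final theorems (the list of the analytic inputs is that of helper38's
module Pool.Agent.H38R2.CG3.All)
-/

set_option autoImplicit false

namespace Pool.Agent.H951R5.AR

open Pool.Agent.H38R2.CG Pool.Agent.H38R2.CG2 Pool.Agent.H38R2.CG3

theorem final_both : FinalAR ∧ FinalARP := by
  have h_P_N0 : P_N0 := T_N0
  have h_P_N0d : P_N0d := T_N0d
  have h_P_SPL : P_SPL := T_SPL h_P_N0
  have h_P_N1 : P_N1 := T_N1 h_P_SPL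
  have h_P_N2 : P_N2 := T_N2 h_P_SPL
  have h_P_KR : P_KR := T_KR
  have h_P_PV : P_PV := T_PV
  have h_P_N3a : P_N3a := T_N3a h_P_KR h_P_PV
  have h_P_N3b : P_N3b := T_N3b h_P_KR h_P_PV h_P_N3a
  have h_P_N3 : P_N3 := T_N3 h_P_N2 h_P_N3b
  have h_P_N4a : P_N4a := T_N4a
  have h_P_N4b : P_N4b := T_N4b
  have h_P_N4 : P_N4 := T_N4 h_P_N4a h_P_N4b
  have h_P_KF : P_KF := T_KF
  have h_P_N5b : P_N5b := T_N5b h_P_KF h_P_N4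
  have h_P_N6 : P_N6 := T_N6 h_P_KF
  have h_P2_TRIV : P2_TRIV := T2_TRIV
  have h_P_N0e : P_N0e := T_N0e h_P_N0d
  have h_P_N5a : P_N5a := T_N5a h_P_KF
  have h_P_N5 : P_N5 := T_N5 h_P_N3 h_P_N4 h_P_N5a h_P_N5b
  have h_P_NF : P_NF := T_NF h_P_N0 h_P_N0e h_P_N1 h_P_N3 h_P_N5 h_P_N6
  have h_P_NB : P_NB := T_NB
  have h_P2_NB : P2_NB := T2_NB h_P_NB
  have h_P2_WT : P2_WT := T2_WT
  have h_P2_V0 : P2_V0 := T2_V0 h_P2_WT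
  have h_P2_V1 : P2_V1 := T2_V1 h_P_PV h_P2_WT
  have h_P2_LM : P2_LM := T2_LM h_P_N3a h_P2_WT h_P2_V0 h_P2_V1
  have h_P2_SZ : P2_SZ := T2_SZ
  have h_P2_M1L : P2_M1L := T2_M1L h_P2_SZ h_P2_NB h_P2_WT h_P2_V0 h_P2_V1
  have h_P2_COMB : P2_COMB := T2_COMB
  have h_P2_PAIR : P2_PAIR := T2_PAIR
  have h_P2_MLOW : P2_MLOW := T2_MLOW h_P2_SZ h_P2_NB h_P2_COMB h_P2_PAIR h_P2_WT h_P2_V0 h_P2_V1
  have h_P_TB2 : P_TB2 := T_TB2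
  have h_P2_T1a : P2_T1a := T2_T1a
  have h_P2_T1 : P2_T1 := T2_T1 h_P2_WT h_P2_T1a
  have h_P2_R1 : P2_R1 := T2_R1
  have h_P2_R2 : P2_R2 := T2_R2
  have h_P2_T2 : P2_T2 := T2_T2 h_P2_R1 h_P2_R2
  have h_P2_JP : P2_JP := T2_JP
  have h_P_TB3a : P_TB3a := T_TB3a
  have h_P2_ERR : P2_ERR := T2_ERR h_P2_SZ h_P2_NB h_P2_WT h_P2_V0 h_P2_R1 h_P_TB3a
  have h_P2_FJ : P2_FJ := T2_FJ
  have h_P2_OMC : P2_OMC := T2_OMC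
  have h_P2_OM : P2_OM := T2_OM h_P_TB2 h_P2_FJ h_P2_OMC
  have h_P_TB3c : P_TB3c := T_TB3c
  have h_P_TB6b : P_TB6b := T_TB6b
  have h_P_TB6c : P_TB6c := T_TB6c
  have h_P2_FS : P2_FS := T2_FS
  have h_P2_JX : P2_JX := T2_JX
  have h_P2_KB : P2_KB := T2_KB
  have h_P2_HS : P2_HS := T2_HS
  have h_P_LS : P_LS := T_LS
  have h_P_CC5 : P_CC5 := T_CC5 h_P_LS h_P_NB
  have h_P_CC6 : P_CC6 := T_CC6 h_P_NB
  have h_P2_CC7 : P2_CC7 := T2_CC7 h_P_CC5 h_P_CC6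
  have h_P_CC1 : P_CC1 := T_CC1
  have h_P_BT : P_BT := T_BT
  have h_P_CC3 : P_CC3 := T_CC3 h_P_BT h_P_NB
  have h_P2_CC4 : P2_CC4 := T2_CC4 h_P_CC1 h_P_CC3
  have h_P2_NBAD : P2_NBAD := T2_NBAD h_P2_NB h_P2_CC4
  have h_P2_TC : P2_TC := T2_TC h_P2_NB h_P2_FJ h_P2_FS h_P2_JX h_P2_KB h_P2_HS h_P2_CC7 h_P2_NBAD
  have h_P_TB6a : P_TB6a := T_TB6a
  have h_P2_TD : P2_TD := T2_TD h_P_TB6a h_P_TB3c
  have h_P2_TE : P2_TE := T2_TE h_P2_NB h_P2_FJ h_P2_FS h_P2_JX h_P2_KB h_P2_HS h_P2_CC7 h_P2_NBAD h_P2_TD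
  have h_P2_TA : P2_TA := T2_TA h_P_TB3c h_P_TB6b h_P_TB6c h_P2_FJ h_P2_JP h_P2_TC h_P2_TE
  have h_P2_TMa : P2_TMa := T2_TMa h_P2_SZ h_P2_NB h_P_TB2 h_P2_FJ h_P2_JP h_P2_OMC h_P2_OM h_P2_TA
  have h_P2_TMb : P2_TMb := T2_TMb h_P2_SZ h_P2_NB h_P_TB2 h_P_TB3c h_P2_FJ h_P2_JP h_P2_OMC h_P2_OM h_P2_TC
  have h_P2_TC0 : P2_TC0 := T2_TC0 h_P2_FJ h_P2_JX h_P2_KB h_P2_HS
  have h_P2_TMc : P2_TMc := T2_TMc h_P2_SZ h_P2_NB h_P_TB2 h_P_TB3c h_P2_FJ h_P2_JP h_P2_OMC h_P2_OM h_P2_TC0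
  have h_P2_TM : P2_TM := T2_TM h_P2_SZ h_P2_NB h_P2_COMB h_P2_PAIR h_P_TB2 h_P2_WT h_P2_T1 h_P2_T2 h_P2_JP h_P2_ERR h_P2_TMa h_P2_TMb h_P2_TMc
  have h_P3_AS0 : P3_AS0 := T3_AS0 h_P_NF h_P2_NB h_P2_WT h_P2_LM h_P2_M1L h_P2_MLOW h_P2_TM
  have h_FinalAR : FinalAR := finalAR h_P_N0 h_P_N0d h_P_N1 h_P_N3 h_P_N5 h_P_N6 h_P2_TRIV h_P3_AS0
  have h_P2_BF : P2_BF := T2_BF
  have h_P2_HB : P2_HB := T2_HB
  have h_P2_HD : P2_HD := T2_HD h_P2_BF h_P2_HB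
  have h_P2_CH : P2_CH := T2_CH
  have h_P2_BHa : P2_BHa := T2_BHa
  have h_P2_MP : P2_MP := T2_MP
  have h_P2_BHc : P2_BHc := T2_BHc h_P2_BF h_P2_HB h_P2_CH h_P2_MP h_P2_BHa
  have h_P2_BH : P2_BH := T2_BH h_P2_BF h_P2_HB h_P2_HD h_P2_CH h_P2_BHa h_P2_BHc
  have h_P2_RC : P2_RC := T2_RC
  have h_FinalARP : FinalARP := finalARP h_P_N0 h_P_N0d h_P_N1 h_P_N3 h_P_N5 h_P_N6 h_P_NB h_P2_BH h_P2_RC h_P3_AS0
  exact ⟨h_FinalAR, h_FinalARP⟩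


theorem finalAR_true : FinalAR := final_both.1

theorem finalARP_true : FinalARP := final_both.2

end Pool.Agent.H951R5.AR
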