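import Pool.Agent.H951R5.AR.Lat

/-!
# The B-units are generated by small elements
-/

set_option autoImplicit false

namespace Pool.Agent.H951R5.AR

open Finset Filter NumberField
open scoped Classical

variable {K : Type} [Field K] [NumberField K]
set_option linter.unusedSectionVars false

/-- totally positive small elements -/
def GenP (K : Type) [Field K] [NumberField K] (σ τ : K →+* ℝ) (B n : ℝ) : Set Kˣ :=
  {x : Kˣ | x ∈ Gen K σ τ B n ∧ TotPos σ τ (x : K)}

theorem TotPos.ne {σ τ : K →+* ℝ} {x : K} (h : TotPos σ τ x) : x ≠ 0 := by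
  rintro rfl
  have := h.1
  rw [map_zero] at this
  exact lt_irrefl _ this

theorem TotPos.div {σ τ : K →+* ℝ} {x y : K} (h : TotPos σ τ x) (h' : TotPos σ τ y) :
    TotPos σ τ (x / y) :=
  ⟨by rw [map_div₀]; exact div_pos h.1 h'.1, by rw [map_div₀]; exact div_pos h.2 h'.2⟩

theorem log_div' {σ τ : K →+* ℝ} {x y : K} (h : x ≠ 0) (h' : y ≠ 0) :
    Real.log (σ (x / y) / τ (x / y)) =
      Real.log (σ x / τ x) - Real.log (σ y / τ y) := by
  have a1 : σ x ≠ 0 := (map_ne_zero σ).2 h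
  have a2 : τ x ≠ 0 := (map_ne_zero τ).2 h
  have a3 : σ y ≠ 0 := (map_ne_zero σ).2 h'
  have a4 : τ y ≠ 0 := (map_ne_zero τ).2 h'
  have h1 : σ (x / y) / τ (x / y) = (σ x / τ x) / (σ y / τ y) := by
    rw [map_div₀, map_div₀]
    field_simp
  rw [h1, Real.log_div (div_ne_zero a1 a2) (div_ne_zero a3 a4)]

/-- quotient of two representations -/
theorem quot_gen {σ τ : K →+* ℝ} {B n : ℝ} {x x' : Kˣ} {q q' R R' J J' : Ideal (𝓞 K)} {m m' : ℝ}
    (hq : SmallProd K B n q) (hq' : SmallProd K B n q')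
    (hR : SmallProd K B m R) (hR' : SmallProd K B m' R')
    (hx : FractionalIdeal.spanSingleton (nonZeroDivisors (𝓞 K)) (x : K) *
      (q : FractionalIdeal (nonZeroDivisors (𝓞 K)) K) = J)
    (hx' : FractionalIdeal.spanSingleton (nonZeroDivisors (𝓞 K)) (x' : K) *
      (q' : FractionalIdeal (nonZeroDivisors (𝓞 K)) K) = J') (hJ : J' * R' = J * R)
    (hm : m ≤ 1) (hm' : m' ≤ 1)
    (hlog : |Real.log (σ (x' : K) / τ (x' : K)) - Real.log (σ (x : K) / τ (x : K))| ≤ 5) :
    x' / x ∈ Gen K σ τ B (1 + n) := by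
  refine ⟨⟨q * R, q' * R', ?_, ?_, ?_⟩, ?_⟩
  · exact (hq.mul hR).mono le_rfl (by linarith)
  · exact (hq'.mul hR').mono le_rfl (by linarith)
  · have hx0 : (x : K) ≠ 0 := x.ne_zero
    have h1 : FractionalIdeal.spanSingleton (nonZeroDivisors (𝓞 K)) ((x' / x : Kˣ) : K) =
        FractionalIdeal.spanSingleton (nonZeroDivisors (𝓞 K)) ((x : K)⁻¹) *
        FractionalIdeal.spanSingleton (nonZeroDivisors (𝓞 K)) (x' : K) := by
      rw [FractionalIdeal.spanSingleton_mul_spanSingleton, Units.val_div_eq_div_val,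
        div_eq_mul_inv, mul_comm]
    have hJ' : (J' : FractionalIdeal (nonZeroDivisors (𝓞 K)) K) * R' = J * R := by
      rw [← FractionalIdeal.coeIdeal_mul, hJ, FractionalIdeal.coeIdeal_mul]
    rw [h1, FractionalIdeal.coeIdeal_mul, FractionalIdeal.coeIdeal_mul]
    calc FractionalIdeal.spanSingleton (nonZeroDivisors (𝓞 K)) ((x : K)⁻¹) *
        FractionalIdeal.spanSingleton (nonZeroDivisors (𝓞 K)) (x' : K) *
        ((q' : FractionalIdeal (nonZeroDivisors (𝓞 K)) K) * R')
        = FractionalIdeal.spanSingleton (nonZeroDivisors (𝓞 K)) ((x : K)⁻¹) *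
        ((FractionalIdeal.spanSingleton (nonZeroDivisors (𝓞 K)) (x' : K) *
        (q' : FractionalIdeal (nonZeroDivisors (𝓞 K)) K)) * R') := by ring
      _ = (FractionalIdeal.spanSingleton (nonZeroDivisors (𝓞 K)) ((x : K)⁻¹) *
        FractionalIdeal.spanSingleton (nonZeroDivisors (𝓞 K)) (x : K)) * (q * R) := by
          rw [hx', hJ', ← hx]; ring
      _ = q * R := by
          rw [FractionalIdeal.spanSingleton_mul_spanSingleton, inv_mul_cancel₀ hx0,
            FractionalIdeal.spanSingleton_one, one_mul]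
  · rw [Real.log_abs, Units.val_div_eq_div_val, log_div' x'.ne_zero x.ne_zero]
    exact hlog

/-- reachable points -/
def Rch (K : Type) [Field K] [NumberField K] (σ τ : K →+* ℝ) (B n : ℝ) (J : Ideal (𝓞 K))
    (s : ℝ) : Prop :=
  ∃ x : Kˣ, x ∈ Subgroup.closure (GenP K σ τ B (1 + n)) ∧ TotPos σ τ (x : K) ∧
    ∃ q : Ideal (𝓞 K), SmallProd K B n q ∧
      FractionalIdeal.spanSingleton (nonZeroDivisors (𝓞 K)) (x : K) *
        (q : FractionalIdeal (nonZeroDivisors (𝓞 K)) K) = J ∧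
      |Real.log (σ (x : K) / τ (x : K)) - s| ≤ 2

theorem Rch.step {σ τ : K →+* ℝ} {B n : ℝ} (hcov : Covers K σ τ B n) {J R : Ideal (𝓞 K)}
    {s s' : ℝ} (h : Rch K σ τ B n J s) (hR : SmallProd K B 1 R) (hJ : J * R ≠ ⊥)
    (hs : |s' - s| ≤ 1) : Rch K σ τ B n (J * R) s' := by
  obtain ⟨x, hx1, hx2, q, hq, hx3, hx4⟩ := h
  obtain ⟨q', y, hq', hy1, hy2, hy3⟩ := hcov (J * R) hJ s'
  have hgen : Units.mk0 y hy1.ne / x ∈ Gen K σ τ B (1 + n) := by
    refine quot_gen (J := J) (J' := J * R) (R' := 1) (R := R) (m := 1) (m' := 1) hq hq' hR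
      (SmallProd.one zero_le_one) hx3 hy2 (mul_one _) le_rfl le_rfl ?_
    rw [Units.val_mk0]
    rw [abs_le] at *
    constructor <;> linarith [hs.1, hs.2, hx4.1, hx4.2, hy3.1, hy3.2]
  refine ⟨Units.mk0 y hy1.ne, ?_, hy1, q', hq', hy2, hy3⟩
  have h1 : Units.mk0 y hy1.ne / x ∈ Subgroup.closure (GenP K σ τ B (1 + n)) := by
    refine Subgroup.subset_closure ⟨hgen, ?_⟩
    rw [Units.val_div_eq_div_val, Units.val_mk0]
    exact hy1.div hx2
  have h2 := Subgroup.mul_mem _ h1 hx1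
  rwa [div_mul_cancel] at h2

theorem reach {σ τ : K →+* ℝ} {B n : ℝ} (hn : 0 ≤ n) (hcov : Covers K σ τ B n)
    {J : Ideal (𝓞 K)} {m : ℝ} (hJ : SmallProd K B m J) (s : ℝ) : Rch K σ τ B n J s := by
  have h0 : Rch K σ τ B n 1 0 := by
    refine ⟨1, Subgroup.one_mem _, ⟨by simp, by simp⟩, 1, SmallProd.one hn, ?_, by simp⟩
    rw [Units.val_one, FractionalIdeal.spanSingleton_one, one_mul]
  have h1 : ∀ L : Multiset (Ideal (𝓞 K)),
      (∀ P ∈ L, P.IsPrime ∧ P ≠ ⊥ ∧ ((Ideal.absNorm P : ℕ) : ℝ) ≤ B) →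
      Rch K σ τ B n L.prod 0 := by
    intro L
    induction L using Multiset.induction_on with
    | empty => intro _; rw [Multiset.prod_zero]; exact h0
    | cons P L ih =>
      intro hL
      have hP := hL P (Multiset.mem_cons_self P L)
      have hL' : ∀ Q ∈ L, Q.IsPrime ∧ Q ≠ ⊥ ∧ ((Ideal.absNorm Q : ℕ) : ℝ) ≤ B :=
        fun Q hQ => hL Q (Multiset.mem_cons_of_mem hQ)
      rw [Multiset.prod_cons, mul_comm]
      refine (ih hL').step hcov (SmallProd.prime hP.1 hP.2.1 hP.2.2) ?_ (by simp)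
      refine mul_ne_zero ?_ hP.2.1
      exact SmallProd.ne (B := B) (n := L.card) ⟨L, hL', le_rfl, rfl⟩
  obtain ⟨L, hL1, hL2, rfl⟩ := hJ
  have hne : L.prod ≠ ⊥ := SmallProd.ne (B := B) (n := L.card) ⟨L, hL1, le_rfl, rfl⟩
  have h2 : ∀ k : ℕ, ∀ s : ℝ, |s| ≤ k → Rch K σ τ B n L.prod s := by
    intro k
    induction k with
    | zero =>
      intro s hs
      have h3 : s = 0 := by
        rw [Nat.cast_zero] at hs
        exact abs_eq_zero.1 (le_antisymm hs (abs_nonneg s))
      rw [h3]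
      exact h1 L hL1
    | succ k ih =>
      intro s hs
      have hk : (0 : ℝ) ≤ k := Nat.cast_nonneg k
      push_cast at hs
      have h3 := ih (s * (k / (k + 1))) (by
        rw [abs_mul, abs_of_nonneg (by positivity : (0 : ℝ) ≤ k / (k + 1))]
        calc |s| * (k / (k + 1)) ≤ (k + 1) * (k / (k + 1)) := by
              apply mul_le_mul_of_nonneg_right hs (by positivity)
          _ = k := by field_simp)
      have h4 := h3.step hcov (R := 1) (s' := s) (SmallProd.one zero_le_one)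
        (by rw [mul_one]; exact hne) (by
          have : s - s * (k / (k + 1)) = s / (k + 1) := by field_simp; ring
          rw [this, abs_div, abs_of_pos (by positivity : (0 : ℝ) < k + 1)]
          rw [div_le_one (by positivity)]
          exact hs)
      rwa [mul_one] at h4
  obtain ⟨k, hk⟩ := exists_nat_ge |s|
  exact h2 k s hk

/-- the generation theorem -/
theorem sunit_gen {σ τ : K →+* ℝ} {B n : ℝ} (hn : 0 ≤ n) (hcov : Covers K σ τ B n)
    {u : Kˣ} (hu : u ∈ SUnit K B) :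
    u ∈ Subgroup.closure (Gen K σ τ B (1 + n)) ∧
      (TotPos σ τ (u : K) → u ∈ Subgroup.closure (GenP K σ τ B (1 + n))) := by
  obtain ⟨m, A, A', hA, hA', huA⟩ := hu
  set s : ℝ := Real.log (σ (u : K) / τ (u : K)) with hs
  obtain ⟨x, hx1, hx2, q, hq, hx3, hx4⟩ := reach hn hcov hA s
  obtain ⟨y, hy1, hy2, q', hq', hy3, hy4⟩ := reach hn hcov hA' 0
  have hle : Subgroup.closure (GenP K σ τ B (1 + n)) ≤ Subgroup.closure (Gen K σ τ B (1 + n)) :=
    Subgroup.closure_mono fun z hz => hz.1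
  have huy : FractionalIdeal.spanSingleton (nonZeroDivisors (𝓞 K)) ((u * y : Kˣ) : K) *
      (q' : FractionalIdeal (nonZeroDivisors (𝓞 K)) K) = A := by
    rw [Units.val_mul, ← FractionalIdeal.spanSingleton_mul_spanSingleton, mul_assoc, hy3, huA]
  have hlog : Real.log (σ ((u * y : Kˣ) : K) / τ ((u * y : Kˣ) : K)) =
      s + Real.log (σ (y : K) / τ (y : K)) := by
    have h1 := log_div' (σ := σ) (τ := τ) (u * y).ne_zero y.ne_zero
    have h2 : ((u * y : Kˣ) : K) / (y : K) = u := by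
      rw [Units.val_mul, mul_div_cancel_right₀ _ y.ne_zero]
    rw [h2, ← hs] at h1
    linarith
  have hgen : (u * y) / x ∈ Gen K σ τ B (1 + n) := by
    refine quot_gen (J := A) (J' := A) (R' := 1) (R := 1) (m := 1) (m' := 1) hq hq'
      (SmallProd.one zero_le_one) (SmallProd.one zero_le_one) hx3 huy rfl le_rfl le_rfl ?_
    rw [hlog]
    rw [abs_le] at *
    constructor <;> linarith [hx4.1, hx4.2, hy4.1, hy4.2]
  have heq : u = (u * y) / x * x / y := by
    rw [div_mul_cancel, mul_div_cancel_right]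
  constructor
  · rw [heq]
    exact Subgroup.div_mem _ (Subgroup.mul_mem _ (Subgroup.subset_closure hgen) (hle hx1))
      (hle hy1)
  · intro hpos
    rw [heq]
    refine Subgroup.div_mem _ (Subgroup.mul_mem _ (Subgroup.subset_closure ⟨hgen, ?_⟩) hx1) hy1
    rw [Units.val_div_eq_div_val, Units.val_mul]
    refine TotPos.div ⟨?_, ?_⟩ hx2
    · rw [map_mul]; exact mul_pos hpos.1 hy2.1
    · rw [map_mul]; exact mul_pos hpos.2 hy2.2

/-- a product of small primes that are principal is principal -/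
theorem principal_prod {B : ℝ}
    (h : ∀ P : Ideal (𝓞 K), P.IsPrime → P ≠ ⊥ → ((Ideal.absNorm P : ℕ) : ℝ) ≤ B →
      ∃ x : K, FractionalIdeal.spanSingleton (nonZeroDivisors (𝓞 K)) x =
        (P : FractionalIdeal (nonZeroDivisors (𝓞 K)) K)) :
    ∀ L : Multiset (Ideal (𝓞 K)),
      (∀ P ∈ L, P.IsPrime ∧ P ≠ ⊥ ∧ ((Ideal.absNorm P : ℕ) : ℝ) ≤ B) →
      ∃ x : K, FractionalIdeal.spanSingleton (nonZeroDivisors (𝓞 K)) x =
        (L.prod : FractionalIdeal (nonZeroDivisors (𝓞 K)) K) := by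
  intro L
  induction L using Multiset.induction_on with
  | empty =>
    intro _
    refine ⟨1, ?_⟩
    rw [Multiset.prod_zero, FractionalIdeal.spanSingleton_one, Ideal.one_eq_top,
      FractionalIdeal.coeIdeal_top]
  | cons P L ih =>
    intro hL
    have hP := hL P (Multiset.mem_cons_self P L)
    obtain ⟨y, hy⟩ := ih fun Q hQ => hL Q (Multiset.mem_cons_of_mem hQ)
    obtain ⟨x, hx⟩ := h P hP.1 hP.2.1 hP.2.2
    refine ⟨x * y, ?_⟩
    rw [Multiset.prod_cons, FractionalIdeal.coeIdeal_mul, ← hx, ← hy,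
      FractionalIdeal.spanSingleton_mul_spanSingleton]

/-- an integral ideal generated by an element of the field is principal -/
theorem isPrincipal_of_span {I : Ideal (𝓞 K)} {z : K}
    (h : FractionalIdeal.spanSingleton (nonZeroDivisors (𝓞 K)) z =
      (I : FractionalIdeal (nonZeroDivisors (𝓞 K)) K)) : I.IsPrincipal := by
  have hz : z ∈ (I : FractionalIdeal (nonZeroDivisors (𝓞 K)) K) := by
    rw [← h]
    exact FractionalIdeal.mem_spanSingleton_self _ z
  obtain ⟨w, hw, rfl⟩ := (FractionalIdeal.mem_coeIdeal _).1 hz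
  refine ⟨w, ?_⟩
  have h1 : (Ideal.span {w} : Ideal (𝓞 K)) = I := by
    apply FractionalIdeal.coeIdeal_injective (K := K)
    show ((Ideal.span {w} : Ideal (𝓞 K)) : FractionalIdeal (nonZeroDivisors (𝓞 K)) K) = _
    rw [FractionalIdeal.coeIdeal_span_singleton, h]
  exact h1.symm

/-- the criterion for unique factorisation -/
theorem ufd_iff {σ τ : K →+* ℝ} {B n : ℝ} (hn : 0 ≤ n) (hcov : Covers K σ τ B n) :
    UniqueFactorizationMonoid (𝓞 K) ↔
      ∀ P : Ideal (𝓞 K), P.IsPrime → P ≠ ⊥ → ((Ideal.absNorm P : ℕ) : ℝ) ≤ B →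
        ∃ x ∈ Subgroup.closure (Gen K σ τ B (1 + n)),
          FractionalIdeal.spanSingleton (nonZeroDivisors (𝓞 K)) ((x : Kˣ) : K) =
            (P : FractionalIdeal (nonZeroDivisors (𝓞 K)) K) := by
  constructor
  · intro hU P hP hP0 hPB
    have : IsPrincipalIdealRing (𝓞 K) :=
      IsPrincipalIdealRing.of_isDedekindDomain_of_uniqueFactorizationMonoid (𝓞 K)
    obtain ⟨w, hw⟩ := IsPrincipalIdealRing.principal P
    have hw' : P = Ideal.span {w} := hw
    have hw0 : (w : K) ≠ 0 := by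
      intro h0
      have : w = 0 := by exact_mod_cast h0
      rw [this, Ideal.span_singleton_eq_bot.2 rfl] at hw'
      exact hP0 hw'
    have hspan : FractionalIdeal.spanSingleton (nonZeroDivisors (𝓞 K)) (w : K) =
        (P : FractionalIdeal (nonZeroDivisors (𝓞 K)) K) := by
      rw [hw', FractionalIdeal.coeIdeal_span_singleton]
    refine ⟨Units.mk0 (w : K) hw0, ?_, hspan⟩
    refine (sunit_gen hn hcov ?_).1
    refine ⟨1, P, 1, SmallProd.prime hP hP0 hPB, SmallProd.one zero_le_one, ?_⟩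
    rw [Units.val_mk0, hspan, ← FractionalIdeal.coeIdeal_mul, mul_one]
  · intro h
    have h' : ∀ P : Ideal (𝓞 K), P.IsPrime → P ≠ ⊥ → ((Ideal.absNorm P : ℕ) : ℝ) ≤ B →
      ∃ x : K, FractionalIdeal.spanSingleton (nonZeroDivisors (𝓞 K)) x =
        (P : FractionalIdeal (nonZeroDivisors (𝓞 K)) K) := by
      intro P h1 h2 h3
      obtain ⟨x, -, hx⟩ := h P h1 h2 h3
      exact ⟨x, hx⟩
    have : IsPrincipalIdealRing (𝓞 K) := by
      refine ⟨fun I => ?_⟩
      by_cases hI : I = ⊥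
      · rw [hI]; exact bot_isPrincipal
      · obtain ⟨A, x, hA, -, hx, -⟩ := hcov I hI 0
        obtain ⟨L, hL1, -, rfl⟩ := hA
        obtain ⟨y, hy⟩ := principal_prod h' L hL1
        refine isPrincipal_of_span (z := x * y) ?_
        rw [← FractionalIdeal.spanSingleton_mul_spanSingleton, hy, hx]
    infer_instance

end Pool.Agent.H951R5.AR
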